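import Pool.Agent.Helper69.SHT.St

/-!
# Project SHT (MP_e12aa9_pr), module FLO: lower bound for the expectation
-/

set_option autoImplicit false

namespace Pool.Agent.Helper9.SHT

open Finset Filter Pool.Agent.Helper82.CN Pool.Agent.Helper11.PV Pool.Agent.Helper69.VX
  Pool.Agent.Helper69.UX Pool.Agent.Helper69.SHT

private lemma card_le_ind {n : ℕ} {ω : Sym2 (Fin n) → Bool} {P : Finset (Finset (Fin n))}
    (h : prp ω P) {A : Finset (Fin n)} (hA : A ∈ P) : A.card ≤ ind ω := by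
  classical
  unfold ind Pool.Agent.Helper69.VX.al
  exact Finset.le_sup (f := card) (by
    simp only [mem_filter, mem_univ, true_and]
    exact h A hA)

open Classical in
theorem hFLO : StGFM → StIDN → StMAX → StPRQ → StOPT → StMcd → StFLO := by
  intro hGFM hIDN hMAX hPRQ hOPT hMcd p ε C δ hp0 hp1 hε hε1 hC hδ
  have hp : p < 1 := by
    have : 0 < 1 / Real.exp 2 := by positivity
    linarith
  obtain ⟨C₁, hC1, hG⟩ := hGFM p ε C hp0 hp1 hε hε1 hC
  obtain ⟨n3, hG3⟩ := hG C₁ δ 0 le_rfl hδ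
  obtain ⟨n5, hI⟩ := hIDN p ε hp0 hp1 hε hε1
  obtain ⟨n6, hM⟩ := hMAX p ε hp0 hp1 hε hε1
  have hev : ∀ᶠ n : ℕ in atTop, (16 : ℝ) ≤ (n : ℝ) ^ ε :=
    ((tendsto_rpow_atTop hε).comp tendsto_natCast_atTop_atTop).eventually_ge_atTop 16
  obtain ⟨n7, h7⟩ := eventually_atTop.1 hev
  refine ⟨n3 + n5 + n6 + n7 + 16, fun n T th κ lam mu hn hW hpar => ?_⟩
  obtain ⟨hG4, -⟩ := hG3 n T th κ lam mu (by omega) hW hpar
  obtain ⟨-, hI2, -⟩ := hI n T th (by omega) hW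
  have hM1 := hM n T th (by omega) hW
  have h16 : (16 : ℝ) ≤ (n : ℝ) ^ ε := h7 n (by omega)
  obtain ⟨-, hth, hth1⟩ := id hW
  have hnR : (16 : ℝ) ≤ n := by exact_mod_cast (by omega : 16 ≤ n)
  have hn1 : (1 : ℝ) ≤ n := by linarith
  have hn0 : (0 : ℝ) < n := by linarith
  set s : ℝ := (n : ℝ) ^ (th + 5 * ε) with hs
  -- numerical facts
  have hsq : √(n : ℝ) = (n : ℝ) ^ (1 / 2 : ℝ) := Real.sqrt_eq_rpow n
  have hs2 : 2 * √(n : ℝ) ≤ s := by
    have e1 : (n : ℝ) ^ (1 / 2 + ε) ≤ s := Real.rpow_le_rpow_of_exponent_le hn1 (by linarith)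
    have e2 : (n : ℝ) ^ (1 / 2 + ε) = (n : ℝ) ^ (1 / 2 : ℝ) * (n : ℝ) ^ ε := Real.rpow_add hn0 _ _
    have e3 : 0 ≤ √(n : ℝ) := Real.sqrt_nonneg _
    rw [e2, ← hsq] at e1
    nlinarith
  have hs3 : s ≤ s + (n : ℝ) ^ (th + 3 * ε) := by
    have : 0 ≤ (n : ℝ) ^ (th + 3 * ε) := by positivity
    linarith
  have hna : (n : ℝ) ^ (th - 1 + ε) ≤ 1 / 16 := by
    have e1 : (n : ℝ) ^ (th - 1 + ε) ≤ (n : ℝ) ^ (-ε) :=
      Real.rpow_le_rpow_of_exponent_le hn1 (by linarith)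
    have e2 : (n : ℝ) ^ (-ε) = ((n : ℝ) ^ ε)⁻¹ := Real.rpow_neg hn0.le ε
    have e3 : ((n : ℝ) ^ ε)⁻¹ ≤ 1 / 16 := by
      rw [inv_eq_one_div]
      exact one_div_le_one_div_of_le (by norm_num) h16
    linarith
  have hnb : (n : ℝ) ^ (-(3 : ℝ)) ≤ 1 / 16 := by
    have e1 : (n : ℝ) ^ (-(3 : ℝ)) ≤ (n : ℝ) ^ (-(1 : ℝ)) :=
      Real.rpow_le_rpow_of_exponent_le hn1 (by norm_num)
    rw [Real.rpow_neg_one] at e1
    have e3 : (n : ℝ)⁻¹ ≤ 1 / 16 := by
      rw [inv_eq_one_div]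
      exact one_div_le_one_div_of_le (by norm_num) hnR
    linarith
  have hnc : Real.exp (-(n : ℝ) ^ (th + 4 * ε)) ≤ 1 / 16 := by
    have e1 : (n : ℝ) ^ (1 / 2 : ℝ) ≤ (n : ℝ) ^ (th + 4 * ε) :=
      Real.rpow_le_rpow_of_exponent_le hn1 (by linarith)
    have e2 : (4 : ℝ) ≤ √(n : ℝ) := by
      have : (4 : ℝ) = √16 := by
        rw [show (16 : ℝ) = 4 ^ 2 by norm_num, Real.sqrt_sq (by norm_num)]
      rw [this]
      exact Real.sqrt_le_sqrt hnR
    rw [← hsq] at e1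
    have e3 : Real.exp (-(n : ℝ) ^ (th + 4 * ε)) ≤ Real.exp (-4) :=
      Real.exp_le_exp.2 (by linarith)
    have e4 : (16 : ℝ) ≤ Real.exp 4 := by
      have h1 : (2 : ℝ) ≤ Real.exp 1 := by
        have := Real.add_one_le_exp (1 : ℝ)
        linarith
      have h2 : Real.exp 4 = Real.exp 1 ^ 4 := by
        rw [← Real.exp_nat_mul]; norm_num
      rw [h2]
      calc (16 : ℝ) = 2 ^ 4 := by norm_num
        _ ≤ Real.exp 1 ^ 4 := pow_le_pow_left₀ (by norm_num) h1 4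
    have e5 : Real.exp (-4) ≤ 1 / 16 := by
      rw [Real.exp_neg, inv_eq_one_div]
      exact one_div_le_one_div_of_le (by norm_num) e4
    linarith
  -- the events
  set 𝒟 : Finset (Finset (Finset (Fin n))) := (QQ ε n T th κ).filter
    (fun P => ¬ Good p C₁ δ ((n : ℝ) ^ (th + 5 * ε)) n T 0 κ P) with h𝒟
  set Ea : (Sym2 (Fin n) → Bool) → Prop := fun ω => T + 2 ≤ ind ω with hEa
  set Eb : (Sym2 (Fin n) → Bool) → Prop := fun ω => ∃ P ∈ Pt (Fin n), prp ω P ∧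
    (n : ℝ) ^ (th + 2 * ε) ≤ (P.filter (fun A => A.card = T + 1)).card with hEb
  set Ed : (Sym2 (Fin n) → Bool) → Prop := fun ω => ∃ P ∈ 𝒟, prp ω P with hEd
  have hQPt : ∀ P ∈ QQ ε n T th κ, P ∈ Pt (Fin n) := fun P hP => (mem_filter.mp hP).1
  have hcov : ∀ ω : Sym2 (Fin n) → Bool, ch (gr ω) < KK T κ - s → Ea ω ∨ Eb ω ∨ Ed ω := by
    intro ω hω
    by_contra hcon
    simp only [not_or] at hcon
    obtain ⟨ha, hb, hd⟩ := hcon
    obtain ⟨⟨P, hP, hprp, hcard⟩, -⟩ := hOPT n ω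
    have hch : ch (gr ω) = (P.card : ℝ) := by unfold ch; rw [hcard]
    have hsz : ∀ A ∈ P, A.card ≤ T + 1 := by
      intro A hA
      have e1 := card_le_ind hprp hA
      have e2 : ¬ (T + 2 ≤ ind ω) := ha
      omega
    have hb' : (((P.filter (fun A => A.card = T + 1)).card : ℕ) : ℝ) ≤
        (n : ℝ) ^ (th + 2 * ε) := by
      by_contra h
      exact hb ⟨P, hP, hprp, (not_le.mp h).le⟩
    rw [hch] at hω
    have hc' : (P.card : ℝ) ≤ KK T κ + (n : ℝ) ^ (th + 3 * ε) := by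
      have e1 : 0 ≤ s := by positivity
      have e2 : 0 ≤ (n : ℝ) ^ (th + 3 * ε) := by positivity
      linarith
    have hPQ : P ∈ QQ ε n T th κ := by
      unfold QQ
      rw [mem_filter]
      exact ⟨hP, hsz, hb', hc'⟩
    refine hd ⟨P, ?_, hprp⟩
    rw [h𝒟, mem_filter]
    exact ⟨hPQ, fun hgood => absurd hgood.num1 (not_le.2 hω)⟩
  -- their probabilities
  have hPa : PP p Ea ≤ 1 / 16 := by
    refine le_trans (le_trans ?_ hI2) hna
    unfold PP
    refine EE_mono hp0.le hp.le fun ω => ?_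
    by_cases h : T + 2 ≤ ind ω
    · rw [if_pos h, if_pos h]
      have : 1 ≤ ind ω := by omega
      exact_mod_cast this
    · rw [if_neg h, if_neg h]
  have hPb : PP p Eb ≤ 1 / 16 := le_trans hM1 hnb
  have hPd : PP p Ed ≤ 1 / 16 := by
    refine le_trans (le_trans ?_ hG4) hnc
    have e1 : ∀ P ∈ 𝒟, (1 - p) ^ inn P =
        EE p (fun ω : Sym2 (Fin n) → Bool => if prp ω P then (1 : ℝ) else 0) := by
      intro P hP
      have hPt := hQPt P (mem_filter.mp hP).1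
      exact (hPRQ p 0 n P P hp hPt hPt).1.symm
    rw [Finset.sum_congr rfl e1, ← EE_sum]
    unfold PP
    refine EE_mono hp0.le hp.le fun ω => ?_
    by_cases h : Ed ω
    · rw [if_pos h]
      obtain ⟨P, hP, hprp⟩ := h
      have e2 : (if prp ω P then (1 : ℝ) else 0) ≤ ∑ P ∈ 𝒟, if prp ω P then (1 : ℝ) else 0 :=
        Finset.single_le_sum (f := fun P => if prp ω P then (1 : ℝ) else 0)
          (fun P _ => by split_ifs <;> norm_num) hP
      rw [if_pos hprp] at e2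
      exact e2
    · rw [if_neg h]
      exact Finset.sum_nonneg fun P _ => by split_ifs <;> norm_num
  -- the conclusion
  clear_value Ea Eb Ed
  by_contra hneg
  rw [not_le] at hneg
  have hv : vn p n ≤ 2 * n := (hMcd p n 0 hp0.le hp.le (by omega) le_rfl).1
  have hone : ∀ ω : Sym2 (Fin n) → Bool, (1 : ℝ) ≤
      ((if Ea ω then (1 : ℝ) else 0) + (if Eb ω then (1 : ℝ) else 0) +
        (if Ed ω then (1 : ℝ) else 0)) + (1 / (4 * n)) * (ch (gr ω) - fn p n) ^ 2 := by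
    intro ω
    have ha0 : (0 : ℝ) ≤ (if Ea ω then (1 : ℝ) else 0) := by split_ifs <;> norm_num
    have hb0 : (0 : ℝ) ≤ (if Eb ω then (1 : ℝ) else 0) := by split_ifs <;> norm_num
    have hd0 : (0 : ℝ) ≤ (if Ed ω then (1 : ℝ) else 0) := by split_ifs <;> norm_num
    have hq0 : (0 : ℝ) ≤ (1 / (4 * n)) * (ch (gr ω) - fn p n) ^ 2 := by positivity
    rcases lt_or_ge (ch (gr ω)) (KK T κ - s) with h | h
    · rcases hcov ω h with h | h | h
      · rw [if_pos h]; linarith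
      · rw [if_pos h]; linarith
      · rw [if_pos h]; linarith
    · have e1 : 2 * √(n : ℝ) ≤ ch (gr ω) - fn p n := by linarith
      have e2 : 0 ≤ 2 * √(n : ℝ) := by positivity
      have e3 : (2 * √(n : ℝ)) ^ 2 ≤ (ch (gr ω) - fn p n) ^ 2 := pow_le_pow_left₀ e2 e1 2
      have e4 : (2 * √(n : ℝ)) ^ 2 = 4 * n := by
        rw [mul_pow, Real.sq_sqrt hn0.le]; norm_num
      rw [e4] at e3
      have e5 : (1 : ℝ) ≤ (1 / (4 * n)) * (ch (gr ω) - fn p n) ^ 2 := by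
        calc (1 : ℝ) = (1 / (4 * n)) * (4 * n) := by field_simp
          _ ≤ (1 / (4 * n)) * (ch (gr ω) - fn p n) ^ 2 :=
            mul_le_mul_of_nonneg_left e3 (by positivity)
      linarith
  have hsum := EE_mono hp0.le hp.le hone
  rw [EE_const, EE_add, EE_add, EE_add, EE_mul_left] at hsum
  have hPa' : EE p (fun ω : Sym2 (Fin n) → Bool => if Ea ω then (1 : ℝ) else 0) ≤ 1 / 16 := hPa
  have hPb' : EE p (fun ω : Sym2 (Fin n) → Bool => if Eb ω then (1 : ℝ) else 0) ≤ 1 / 16 := hPb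
  have hPd' : EE p (fun ω : Sym2 (Fin n) → Bool => if Ed ω then (1 : ℝ) else 0) ≤ 1 / 16 := hPd
  have hv' : EE p (fun ω : Sym2 (Fin n) → Bool => (ch (gr ω) - fn p n) ^ 2) ≤ 2 * n := hv
  have hv2 : 1 / (4 * (n : ℝ)) * EE p (fun ω : Sym2 (Fin n) → Bool =>
      (ch (gr ω) - fn p n) ^ 2) ≤ 1 / 2 := by
    calc 1 / (4 * (n : ℝ)) * EE p (fun ω : Sym2 (Fin n) → Bool => (ch (gr ω) - fn p n) ^ 2)
        ≤ 1 / (4 * (n : ℝ)) * (2 * n) := mul_le_mul_of_nonneg_left hv' (by positivity)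
      _ = 1 / 2 := by field_simp; norm_num
  linarith

end Pool.Agent.Helper9.SHT
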